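import Pool.Agent.R632.VRC.Two2

/-! Let `G₁` and `G₂` be virtually fibered groups with a common infinite virtually cyclic subgroup
`G₀` which is a virtual retract of both. Then the amalgamated free product of `G₁` and `G₂` over
`G₀` is virtually fibered. -/

set_option linter.unusedSectionVars false
set_option linter.dupNamespace false

namespace Pool.Agent.Results.MP_9d1793_al.VirtualFibering

universe u

/-- A group is fibered if it has a nontrivial homomorphism to the integers with finitely generated
kernel. -/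
def IsFibered (G : Type u) [Group G] : Prop :=
  ∃ φ : G →* Multiplicative ℤ, φ ≠ 1 ∧ φ.ker.FG

/-- A group is virtually fibered if some subgroup of finite index is fibered. -/
def IsVirtuallyFibered (G : Type u) [Group G] : Prop :=
  ∃ K : Subgroup G, K.FiniteIndex ∧ IsFibered K

/-- `H` is a virtual retract of `G`: some subgroup `K` of finite index in `G` contains `H`, and
there is a homomorphism from `K` to `H` whose restriction to `H` is the identity. -/
def IsVirtualRetract {G : Type u} [Group G] (H : Subgroup G) : Prop :=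
  ∃ K : Subgroup G, K.FiniteIndex ∧ ∃ hHK : H ≤ K, ∃ r : K →* H,
    ∀ h : H, r ⟨(h : G), hHK h.2⟩ = h

/-- A group is virtually cyclic if it has a cyclic subgroup of finite index. -/
def IsVirtuallyCyclic (G : Type u) [Group G] : Prop :=
  ∃ c : G, (Subgroup.zpowers c).FiniteIndex

section amalgam

variable {G₀ G₁ G₂ : Type u} [Group G₀] [Group G₁] [Group G₂] (a : G₀ →* G₁) (b : G₀ →* G₂)

/-- The normal closure, in the free product of `G₁` and `G₂`, of the elements `a g * (b g)⁻¹` with
`g` in `G₀`. -/
def relators : Subgroup (Monoid.Coprod G₁ G₂) :=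
  Subgroup.normalClosure (Set.range fun g : G₀ =>
    (Monoid.Coprod.inl (a g) : Monoid.Coprod G₁ G₂) * (Monoid.Coprod.inr (b g))⁻¹)

instance : (relators a b).Normal := Subgroup.normalClosure_normal

/-- The amalgamated free product of `G₁` and `G₂` over `G₀`, with respect to the embeddings `a` and
`b`: the quotient of the free product in which `a g` and `b g` are identified for all `g`. -/
abbrev AmalgamatedProduct : Type u := Monoid.Coprod G₁ G₂ ⧸ relators a b

end amalgam

/-- Amalgams of virtually fibered groups over an infinite virtually cyclic group that is a virtual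
retract of both factors are virtually fibered. -/
theorem result {G₀ G₁ G₂ : Type u} [Group G₀] [Group G₁] [Group G₂] (a : G₀ →* G₁)
    (b : G₀ →* G₂) (ha : Function.Injective a) (hb : Function.Injective b)
    (h₀ : IsVirtuallyCyclic G₀) (hinf : Infinite G₀)
    (h₁ : IsVirtuallyFibered G₁) (h₂ : IsVirtuallyFibered G₂)
    (ra : IsVirtualRetract a.range) (rb : IsVirtualRetract b.range) :
    IsVirtuallyFibered (AmalgamatedProduct a b) := by
  obtain ⟨c, hc⟩ := h₀
  have hc' : ∀ n : ℤ, c ^ n = 1 → n = 0 := by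
    intro n hn
    by_contra h0
    have hfo : IsOfFinOrder c := isOfFinOrder_iff_zpow_eq_one.mpr ⟨n, h0, hn⟩
    have h2 : Finite (Subgroup.zpowers c) := (finite_zpowers.mpr hfo).to_subtype
    have h3 : Finite (G₀ ⧸ Subgroup.zpowers c) := Subgroup.finite_quotient_of_finiteIndex
    have h4 : Finite G₀ := by
      have : Finite ((G₀ ⧸ Subgroup.zpowers c) × Subgroup.zpowers c) := inferInstance
      exact Finite.of_equiv _
        (Subgroup.groupEquivQuotientProdSubgroup (s := Subgroup.zpowers c)).symm
    exact not_finite G₀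
  obtain ⟨L₁, hL₁, φ₁, hφ₁, hfg₁⟩ := h₁
  obtain ⟨L₂, hL₂, φ₂, hφ₂, hfg₂⟩ := h₂
  obtain ⟨K₁, hK₁, haK, r₁, hr₁⟩ := ra
  obtain ⟨K₂, hK₂, hbK, r₂, hr₂⟩ := rb
  let ea := MonoidHom.ofInjective ha
  let eb := MonoidHom.ofInjective hb
  exact Pool.Agent.R632.VRC.two_fibered a b (QuotientGroup.mk' (relators a b))
    (QuotientGroup.mk'_surjective _) (QuotientGroup.ker_mk' _) c hc' hc K₁ hK₁
    (fun h => haK ⟨h, rfl⟩) (ea.symm.toMonoidHom.comp r₁) (fun h => by
      show ea.symm (r₁ ⟨a h, _⟩) = h
      rw [MulEquiv.symm_apply_eq]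
      exact hr₁ ⟨a h, h, rfl⟩) K₂ hK₂
    (fun h => hbK ⟨h, rfl⟩) (eb.symm.toMonoidHom.comp r₂) (fun h => by
      show eb.symm (r₂ ⟨b h, _⟩) = h
      rw [MulEquiv.symm_apply_eq]
      exact hr₂ ⟨b h, h, rfl⟩) L₁ hL₁ φ₁ hφ₁ hfg₁ L₂ hL₂ φ₂ hφ₂ hfg₂

end Pool.Agent.Results.MP_9d1793_al.VirtualFibering
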